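import Pool.Agent.Helper37.Canopy.Main
import Pool.Agent.Helper71.Canopy.Model

namespace Pool.Agent.Results.MP_3f1d68_pr.CanopyPc

open SimpleGraph Pool.Agent.Helper37.Canopy

/-- For every `d ≥ 3` a canopy tree `CT_d` exists, and for every canopy tree `G` of parameter `d`
the critical parameters of Bernoulli bond percolation on `G × ℤ` and on `G × ℕ` are equal. -/
theorem result : ∀ d : ℕ, 3 ≤ d →
    (∃ (G : SimpleGraph (ℕ × ℕ)) (lev : ℕ × ℕ → ℕ), IsCanopyTree d G lev) ∧
    ∀ (V : Type*) (G : SimpleGraph V) (lev : V → ℕ), IsCanopyTree d G lev →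
      pc (G □ hasse ℤ) = pc (G □ hasse ℕ) :=
  fun d hd => ⟨⟨modelG d, Prod.fst, model_isCanopyTree hd⟩,
    fun _ G lev hG => pc_canopy d hd G lev hG⟩

end Pool.Agent.Results.MP_3f1d68_pr.CanopyPc
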